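import Pool.Agent.Lib.MP_acafa7_al.F.IfaceG
import Pool.Agent.Lib.MP_acafa7_al.MS.H25.FanEx
import Pool.Agent.Lib.MP_acafa7_al.MS.H58.Gb2
import Pool.Agent.Lib.MP_acafa7_al.MS.H72.VOrb

/-! Module QFAN (PaperF section 2): the fan at a marked dart. -/

namespace MSG.F79

open Classical

/-- QFAN -/
theorem qfan_st : QFanStatement := by
  intro D _ M R ℓ o hM hm
  obtain ⟨hoR, huniq, -, hne⟩ := hm
  obtain ⟨k, h1, h2, h3⟩ := MSG.H25.cycle_list (M.φ.symm.trans M.ι) o
  obtain ⟨σ, hσ⟩ : ∃ σ : Equiv.Perm D, σ = M.φ.symm.trans M.ι := ⟨_, rfl⟩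
  rw [← hσ] at h1 h2 h3
  have hσa : ∀ d, σ d = M.ι (M.φ.symm d) := by intro d; rw [hσ]; rfl
  have hcls : ∀ d, M.SameV o d ↔ ∃ j, j ≤ k ∧ (σ ^ (j + 1)) o = d := by
    intro d
    rw [MSG.H72.vorb D M o d, ← hσ, h3]
  have htri : ∀ j, j < k → (σ ^ (j + 1)) o ∉ R := by
    intro j hj hb
    have h4 := huniq _ hb ((hcls _).2 ⟨j, hj.le, rfl⟩)
    have := h2 j k hj.le le_rfl (by rw [h4, h1])
    omega
  have hoff := hM.off.2
  have hzero : M.φ (M.ι ((σ ^ (0 + 1)) o)) = o := by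
    rw [zero_add, pow_one, hσa, M.ιι, Equiv.apply_symm_apply]
  refine ⟨k, fun j => (σ ^ (j + 1)) o, hzero, h1, ?_, htri, h2, hcls, ?_, ?_, ?_⟩
  · intro j hj
    show (σ ^ (j + 1 + 1)) o = M.ι (M.φ (M.φ ((σ ^ (j + 1)) o)))
    rw [pow_succ' σ (j + 1), Equiv.Perm.mul_apply, hσa]
    congr 1
    rw [Equiv.symm_apply_eq]
    exact (hoff _ (htri j hj)).1.symm
  · -- curvature
    unfold DMap.curv
    have hsum : ∑ d : D, (if M.SameV o d then M.wt ℓ {d | d ∈ R} d else 0) =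
        ∑ j ∈ Finset.range (k + 1), M.wt ℓ {d | d ∈ R} ((σ ^ (j + 1)) o) := by
      rw [← Finset.sum_filter]
      symm
      refine Finset.sum_bij (fun j _ => (σ ^ (j + 1)) o) ?_ ?_ ?_ ?_
      · intro j hj
        rw [Finset.mem_range] at hj
        rw [Finset.mem_filter]
        exact ⟨Finset.mem_univ _, (hcls _).2 ⟨j, by omega, rfl⟩⟩
      · intro j hj j' hj' h
        rw [Finset.mem_range] at hj hj'
        exact h2 j j' (by omega) (by omega) h
      · intro d hd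
        rw [Finset.mem_filter] at hd
        obtain ⟨j, hj, h⟩ := (hcls d).1 hd.2
        exact ⟨j, Finset.mem_range.2 (by omega), h⟩
      · intro j _; rfl
    rw [hsum, Finset.sum_range_succ, h1]
    have hw : M.wt ℓ {d | d ∈ R} o = Real.pi := by
      unfold DMap.wt
      rw [if_pos (show o ∈ {d | d ∈ R} from hoR)]
    have hw2 : ∑ j ∈ Finset.range k, M.wt ℓ {d | d ∈ R} ((σ ^ (j + 1)) o) =
        ∑ j ∈ Finset.range k, M.th ℓ ((σ ^ (j + 1)) o) := by
      refine Finset.sum_congr rfl fun j hj => ?_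
      unfold DMap.wt
      rw [if_neg (show (σ ^ (j + 1)) o ∉ {d | d ∈ R} from htri j (Finset.mem_range.1 hj))]
    rw [hw, hw2]
    ring
  · -- the dart before `o` starts at another vertex
    intro hs
    have hi : M.ι ((σ ^ (0 + 1)) o) ∈ R := by
      refine MSG.H58.face_closed hM.face hoR ?_
      refine Equiv.Perm.SameCycle.symm ⟨1, ?_⟩
      rw [zpow_one]
      exact hzero
    have h4 := huniq _ hi hs
    apply hne
    conv_rhs => rw [← hzero, h4]
  · intro hs
    have h5 : M.SameV o (M.φ o) := by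
      have h6 : M.SameV o (M.ι o) := by
        have : M.ι ((σ ^ (k + 1)) o) = M.ι o := by rw [h1]
        rw [← this]; exact hs
      exact M.sameV_trans h6 (M.sameV_symm (M.sameV_step o))
    exact hne (huniq _ (MSG.H58.face_mem hM.face hoR) h5)

end MSG.F79
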