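import Pool.Agent.Lib.MP_acafa7_al.F.IfaceG
import Pool.Agent.Lib.MP_acafa7_al.MS.H58.Gb2
import Pool.Agent.Lib.MP_acafa7_al.MS.H16.Eul
import Pool.Agent.Lib.MP_acafa7_al.MS.H09.Ang

/-! Module QGB (PaperF section 2): Gauss-Bonnet for discs, choice of `o`. -/

namespace MSG.F79

open Classical
open MSG.H58 (face_mem face_same face_closed face_pos tri_class sum_quot sum_mem_const sum_wt
  sum_curv curv_congr)

section main

variable {D : Type} [Fintype D] {M : DMap D} {R : List D}

/-- weights of the darts, with sum one over each face -/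
noncomputable def w1 {D : Type} (R : List D) (d : D) : ℝ :=
  if d ∈ R then 1 / (R.length : ℝ) else 1 / 3

theorem class_sum1 (hR : M.IsFace R) (hB : M.Off3 {d | d ∈ R}) (x : D) :
    ∑ d : D, (if Equiv.Perm.SameCycle M.φ x d then w1 R d else 0) = 1 := by
  by_cases hxR : x ∈ R
  · have e : ∀ d : D, (if Equiv.Perm.SameCycle M.φ x d then w1 R d else 0) =
        if d ∈ R then 1 / (R.length : ℝ) else 0 := by
      intro d
      by_cases hd : d ∈ R
      · rw [if_pos (face_same hR hxR hd), if_pos hd, w1, if_pos hd]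
      · rw [if_neg (fun h => hd (face_closed hR hxR h)), if_neg hd]
    rw [Finset.sum_congr rfl (fun d _ => e d), sum_mem_const R hR.2.1]
    have : (R.length : ℝ) ≠ 0 := by exact_mod_cast (face_pos hR).ne'
    field_simp
  have hxB : x ∉ {d | d ∈ R} := hxR
  have h3 := hB.2 x hxB
  have hn : [x, M.φ x, M.φ (M.φ x)].Nodup := by
    have n1 : M.φ x ≠ x := h3.2
    have n2 : M.φ (M.φ x) ≠ M.φ x := fun h => n1 (M.φ.injective h)
    have n3 : M.φ (M.φ x) ≠ x := by
      intro h
      have := h3.1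
      rw [h] at this
      exact n1 this
    simp only [List.nodup_cons, List.mem_cons, List.not_mem_nil, or_false, not_or,
      not_false_eq_true, List.nodup_nil, and_true]
    exact ⟨⟨fun h => n1 h.symm, fun h => n3 h.symm⟩, fun h => n2 h.symm⟩
  have e : ∀ d : D, (if Equiv.Perm.SameCycle M.φ x d then w1 R d else 0) =
      if d ∈ [x, M.φ x, M.φ (M.φ x)] then (1 / 3 : ℝ) else 0 := by
    intro d
    by_cases hd : Equiv.Perm.SameCycle M.φ x d
    · have hd' := (tri_class h3).1 hd
      have hdR : d ∉ R := fun h => hxR (face_closed hR h hd.symm)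
      rw [if_pos hd, if_pos (by simpa using hd'), w1, if_neg hdR]
    · rw [if_neg hd, if_neg]
      intro h
      exact hd ((tri_class h3).2 (by simpa using h))
  rw [Finset.sum_congr rfl (fun d _ => e d), sum_mem_const _ hn]
  simp

theorem nF_eq1 (hR : M.IsFace R) (hB : M.Off3 {d | d ∈ R}) :
    3 * (M.nF : ℝ) = 3 + (Fintype.card D : ℝ) - R.length := by
  have h1 := sum_quot (Equiv.Perm.SameCycle.setoid M.φ) (w1 R)
  have h2 : ∀ q : Quotient (Equiv.Perm.SameCycle.setoid M.φ),
      ∑ d : D, (if (Equiv.Perm.SameCycle.setoid M.φ).r (Quotient.out q) d then w1 R d else 0)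
        = 1 := by
    intro q
    rw [← class_sum1 hR hB (Quotient.out q)]
    refine Finset.sum_congr rfl fun d _ => ?_
    by_cases hd : Equiv.Perm.SameCycle M.φ (Quotient.out q) d
    · have hd' : (Equiv.Perm.SameCycle.setoid M.φ).r (Quotient.out q) d := hd
      rw [if_pos hd', if_pos hd]
    · have hd' : ¬ (Equiv.Perm.SameCycle.setoid M.φ).r (Quotient.out q) d := hd
      rw [if_neg hd', if_neg hd]
  have h3 : (M.nF : ℝ) = ∑ d : D, w1 R d := by
    rw [← h1, Finset.sum_congr rfl (fun q _ => h2 q), Finset.sum_const, nsmul_eq_mul, mul_one,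
      DMap.nF, Nat.card_eq_fintype_card, Finset.card_univ]
  have e : ∀ d : D, w1 R d = (if d ∈ R then (1 / (R.length : ℝ) - 1 / 3) else 0) + 1 / 3 := by
    intro d
    unfold w1
    by_cases h1 : d ∈ R
    · rw [if_pos h1, if_pos h1]; ring
    · rw [if_neg h1, if_neg h1]; ring
  rw [h3, Finset.sum_congr rfl (fun d _ => e d), Finset.sum_add_distrib,
    sum_mem_const R hR.2.1, Finset.sum_const, nsmul_eq_mul, Finset.card_univ]
  have h1 : (R.length : ℝ) ≠ 0 := by exact_mod_cast (face_pos hR).ne'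
  field_simp
  ring

omit [Fintype D] in
theorem wt_nonneg (M : DMap D) (ℓ : D → ℝ) (B : Set D) (d : D) : 0 ≤ M.wt ℓ B d := by
  unfold DMap.wt
  split_ifs
  · exact Real.pi_pos.le
  · exact Real.arccos_nonneg _

/-- two `B`-darts at a vertex: nonpositive curvature -/
theorem curv_two (ℓ : D → ℝ) (B : Set D) {x y y' : D} (hy : y ∈ B) (hy' : y' ∈ B) (h : y ≠ y')
    (hx : M.SameV x y) (hx' : M.SameV x y') : M.curv ℓ B x ≤ 0 := by
  unfold DMap.curv
  have h1 : ∑ d ∈ ({y, y'} : Finset D), (if M.SameV x d then M.wt ℓ B d else 0) ≤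
      ∑ d : D, (if M.SameV x d then M.wt ℓ B d else 0) := by
    refine Finset.sum_le_sum_of_subset_of_nonneg (Finset.subset_univ _) fun d _ _ => ?_
    split_ifs
    · exact wt_nonneg M ℓ B d
    · exact le_rfl
  rw [Finset.sum_pair h, if_pos hx, if_pos hx', DMap.wt, if_pos hy, DMap.wt, if_pos hy'] at h1
  linarith

/-- one `B`-dart at a vertex: curvature at most `π` -/
theorem curv_one (ℓ : D → ℝ) (B : Set D) {x : D} (hx : x ∈ B) : M.curv ℓ B x ≤ Real.pi := by
  unfold DMap.curv
  have h1 : ∑ d ∈ ({x} : Finset D), (if M.SameV x d then M.wt ℓ B d else 0) ≤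
      ∑ d : D, (if M.SameV x d then M.wt ℓ B d else 0) := by
    refine Finset.sum_le_sum_of_subset_of_nonneg (Finset.subset_univ _) fun d _ _ => ?_
    split_ifs
    · exact wt_nonneg M ℓ B d
    · exact le_rfl
  rw [Finset.sum_singleton, if_pos (M.sameV_refl x), DMap.wt, if_pos hx] at h1
  linarith

/-- Gauss-Bonnet: the total curvature is at least `2 π`. -/
theorem gb1 (ℓ : D → ℝ) (hP : M.Planar) (hR : M.IsFace R) (hB : M.Off3 {d | d ∈ R})
    (hL : M.LenOK ℓ {d | d ∈ R}) :
    2 * Real.pi ≤ ∑ q : Quotient M.vSet, M.curv ℓ {d | d ∈ R} (Quotient.out q) := by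
  have hne : Nonempty D := by
    obtain ⟨x, hx⟩ := List.exists_mem_of_ne_nil R hR.1
    exact ⟨x⟩
  have hE := MSG.H16.eul D M hP hne
  have hE' : (Fintype.card D : ℝ) + 4 ≤ 2 * ((M.nV : ℝ) + (M.nF : ℝ)) := by exact_mod_cast hE
  have hF := nF_eq1 hR hB
  have hw := sum_wt MSG.H09.ang ℓ {d | d ∈ R} hB.1 hB.2 hL
  have hc : ∑ d : D, (if d ∈ {d | d ∈ R} then (3 : ℝ) else 1) =
      (Fintype.card D : ℝ) + 2 * R.length := by
    have e : ∀ d : D, (if d ∈ {d | d ∈ R} then (3 : ℝ) else 1) = (if d ∈ R then 2 else 0) + 1 := by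
      intro d
      by_cases h1 : d ∈ R
      · rw [if_pos (show d ∈ {d | d ∈ R} from h1), if_pos h1]; norm_num
      · rw [if_neg (show d ∉ {d | d ∈ R} from h1), if_neg h1]; norm_num
    rw [Finset.sum_congr rfl (fun d _ => e d), Finset.sum_add_distrib, sum_mem_const R hR.2.1,
      Finset.sum_const, nsmul_eq_mul, Finset.card_univ]
    ring
  have hw : 3 * ∑ d : D, M.wt ℓ {d | d ∈ R} d = Real.pi * ((Fintype.card D : ℝ) +
      2 * R.length) := by
    rw [hw, ← hc]
    congr 1
    refine Finset.sum_congr rfl fun d _ => ?_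
    by_cases hd : d ∈ {d | d ∈ R}
    · rw [if_pos hd, if_pos hd]
    · rw [if_neg hd, if_neg hd]
  rw [sum_curv]
  have hpi := Real.pi_pos
  have h1 : Real.pi * ((Fintype.card D : ℝ) + 4 - 2 * M.nF) ≤ Real.pi * (2 * M.nV) :=
    mul_le_mul_of_nonneg_left (by linarith) hpi.le
  have h2 : Real.pi * (3 * (M.nF : ℝ)) = Real.pi * (3 + (Fintype.card D : ℝ) - R.length) := by
    rw [hF]
  nlinarith

/-- sum of the lengths over `R` and over the predecessors -/
theorem sum_len (hR : M.IsFace R) (ℓ : D → ℝ) :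
    ∑ d : D, (if d ∈ R then ℓ (M.φ.symm d) + ℓ d else 0) = 2 * (R.map ℓ).sum := by
  have h1 : (R.map ℓ).sum = ∑ d : D, (if d ∈ R then ℓ d else 0) := by
    rw [← List.sum_toFinset ℓ hR.2.1, ← Finset.sum_filter]
    refine Finset.sum_congr ?_ fun _ _ => rfl
    ext d; simp
  have h2 : ∑ d : D, (if d ∈ R then ℓ (M.φ.symm d) else 0) = ∑ d : D, (if d ∈ R then ℓ d else 0) := by
    rw [← Equiv.sum_comp M.φ]
    refine Finset.sum_congr rfl fun d _ => ?_
    have h3 : M.φ d ∈ R ↔ d ∈ R :=
      ⟨fun h => face_closed hR h (Equiv.Perm.SameCycle.symm ⟨1, by rw [zpow_one]⟩),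
        fun h => face_mem hR h⟩
    by_cases hd : d ∈ R
    · rw [if_pos (h3.2 hd), if_pos hd, Equiv.symm_apply_apply]
    · rw [if_neg (fun h => hd (h3.1 h)), if_neg hd]
  have h4 : ∀ d : D, (if d ∈ R then ℓ (M.φ.symm d) + ℓ d else 0) =
      (if d ∈ R then ℓ (M.φ.symm d) else 0) + (if d ∈ R then ℓ d else 0) := by
    intro d
    split_ifs <;> ring
  rw [Finset.sum_congr rfl (fun d _ => h4 d), Finset.sum_add_distrib, h2, h1]
  ring

end main

/-- QGB -/
theorem qgb_st : QGBStatement := by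
  intro D _ M R ℓ hM
  obtain ⟨hP, hR, hB, hL, hnpc⟩ := hM
  obtain ⟨B, hBd⟩ : ∃ B : Set D, B = {d | d ∈ R} := ⟨_, rfl⟩
  have hpi := Real.pi_pos
  have hgb := gb1 ℓ hP hR hB hL
  rw [← hBd] at hgb hnpc
  have hmem : ∀ d, d ∈ B ↔ d ∈ R := by intro d; rw [hBd]; rfl
  -- the positive curvature of the good darts
  obtain ⟨G, hG⟩ : ∃ G : D → ℝ, ∀ d, G d = if d ∈ R ∧ (∀ b ∈ R, M.SameV d b → b = d) ∧
      0 < M.curv ℓ B d then M.curv ℓ B d else 0 := ⟨_, fun _ => rfl⟩
  have hG0 : ∀ d, 0 ≤ G d := by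
    intro d
    rw [hG]
    split_ifs with h
    · exact h.2.2.le
    · exact le_rfl
  have hcl : ∀ q : Quotient M.vSet, M.curv ℓ B (Quotient.out q) ≤
      ∑ d : D, (if M.vSet.r (Quotient.out q) d then G d else 0) := by
    intro q
    obtain ⟨x, hx⟩ : ∃ x, x = Quotient.out q := ⟨_, rfl⟩
    rw [← hx]
    have hnn : 0 ≤ ∑ d : D, (if M.vSet.r x d then G d else 0) := by
      refine Finset.sum_nonneg fun d _ => ?_
      split_ifs
      · exact hG0 d
      · exact le_rfl
    by_cases hpos : M.curv ℓ B x ≤ 0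
    · exact hpos.trans hnn
    push Not at hpos
    have hex : ∃ b ∈ R, M.SameV x b := by
      by_contra hc
      push Not at hc
      have := hnpc x hc
      linarith
    obtain ⟨b, hb, hxb⟩ := hex
    have huni : ∀ b' ∈ R, M.SameV b b' → b' = b := by
      intro b' hb' hbb
      by_contra hc
      have := curv_two ℓ B ((hmem b).2 hb) ((hmem b').2 hb') (fun h => hc h.symm) hxb
        (M.sameV_trans hxb hbb)
      linarith
    have hcb := curv_congr ℓ B hxb
    have hGb : G b = M.curv ℓ B x := by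
      rw [hG, if_pos ⟨hb, huni, by rw [← hcb]; exact hpos⟩, hcb]
    rw [← hGb]
    have h1 : (if M.vSet.r x b then G b else 0) ≤
        ∑ d : D, (if M.vSet.r x d then G d else 0) := by
      refine Finset.single_le_sum (f := fun d => if M.vSet.r x d then G d else 0)
        (fun d _ => ?_) (Finset.mem_univ b)
      split_ifs
      · exact hG0 d
      · exact le_rfl
    rwa [if_pos (show M.vSet.r x b from hxb)] at h1
  have hsum : 2 * Real.pi ≤ ∑ d : D, G d := by
    rw [← sum_quot M.vSet G]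
    exact hgb.trans (Finset.sum_le_sum fun q _ => hcl q)
  -- positivity of the length
  have hL0 : 0 < (R.map ℓ).sum := by
    have h1 := sum_len hR ℓ
    obtain ⟨x, hx⟩ := List.exists_mem_of_ne_nil R hR.1
    have h2 : (if x ∈ R then ℓ (M.φ.symm x) + ℓ x else 0) ≤
        ∑ d : D, (if d ∈ R then ℓ (M.φ.symm d) + ℓ d else 0) := by
      refine Finset.single_le_sum (f := fun d => if d ∈ R then ℓ (M.φ.symm d) + ℓ d else 0)
        (fun d _ => ?_) (Finset.mem_univ x)
      split_ifs
      · exact (add_pos (hL.1 _) (hL.1 _)).le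
      · exact le_rfl
    rw [if_pos hx, h1] at h2
    have h3 := hL.1 x
    have h4 := hL.1 (M.φ.symm x)
    linarith
  -- no dart of `R` is fixed
  have hfix : ∀ d ∈ R, M.φ d ≠ d := by
    intro d hd hc
    have h1 : ∀ b ∈ R, b = d := by
      intro b hb
      obtain ⟨i, hi⟩ := face_same hR hd hb
      rw [Equiv.Perm.zpow_apply_eq_self_of_apply_eq_self hc] at hi
      exact hi.symm
    have h2 : ∑ x : D, G x ≤ G d := by
      rw [Finset.sum_eq_single d]
      · intro b _ hbd
        rw [hG, if_neg]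
        rintro ⟨hbR, -, -⟩
        exact hbd (h1 b hbR)
      · intro h
        exact absurd (Finset.mem_univ _) h
    have h3 : G d ≤ Real.pi := by
      rw [hG]
      split_ifs
      · exact curv_one ℓ B ((hmem d).2 hd)
      · exact hpi.le
    linarith
  by_contra hcon
  push Not at hcon
  -- comparison with the lengths
  have hle : ∀ d : D, (R.map ℓ).sum * G d ≤
      Real.pi * (if d ∈ R then ℓ (M.φ.symm d) + ℓ d else 0) ∧
      (G d ≠ 0 → (R.map ℓ).sum * G d <
        Real.pi * (if d ∈ R then ℓ (M.φ.symm d) + ℓ d else 0)) := by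
    intro d
    by_cases h : d ∈ R ∧ (∀ b ∈ R, M.SameV d b → b = d) ∧ 0 < M.curv ℓ B d
    · have h1 : G d = M.curv ℓ B d := by
        rw [hG, if_pos h]
      have h2 := hcon d ⟨h.1, h.2.1, by rw [← hBd]; exact h.2.2, hfix d h.1⟩
      rw [← hBd] at h2
      rw [h1, if_pos h.1]
      exact ⟨h2.le, fun _ => h2⟩
    · have h1 : G d = 0 := by
        rw [hG, if_neg h]
      rw [h1, mul_zero]
      refine ⟨mul_nonneg hpi.le ?_, fun h => absurd rfl h⟩
      split_ifs
      · exact (add_pos (hL.1 _) (hL.1 _)).le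
      · exact le_rfl
  have hexG : ∃ d ∈ (Finset.univ : Finset D), G d ≠ 0 := by
    by_contra hc
    push Not at hc
    have : ∑ d : D, G d = 0 := Finset.sum_eq_zero hc
    linarith
  obtain ⟨d, -, hd⟩ := hexG
  have hlt : ∑ d : D, (R.map ℓ).sum * G d <
      ∑ d : D, Real.pi * (if d ∈ R then ℓ (M.φ.symm d) + ℓ d else 0) :=
    Finset.sum_lt_sum (fun d _ => (hle d).1) ⟨d, Finset.mem_univ d, (hle d).2 hd⟩
  rw [← Finset.mul_sum, ← Finset.mul_sum, sum_len hR ℓ] at hlt
  have h5 := mul_le_mul_of_nonneg_left hsum hL0.le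
  linarith

end MSG.F79
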